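import Mathlib

/-!
# Definitions for the game cardinal `𝔧`
-/

open Cardinal Set Topology

universe u v

namespace Pool.Agent.H13.GameJ

/-- The collection `𝒟` of all families `𝒰` of open subsets of `X` whose union is dense in `X`. -/
def InD {X : Type u} [TopologicalSpace X] (𝒰 : Set (Set X)) : Prop :=
  (∀ U ∈ 𝒰, IsOpen U) ∧ Dense (⋃₀ 𝒰)

/-- The collection `𝒦` of those `𝒰 ∈ 𝒟` for which `{closure U : U ∈ 𝒰}` covers `X`. -/
def InK {X : Type u} [TopologicalSpace X] (𝒰 : Set (Set X)) : Prop :=
  InD 𝒰 ∧ ⋃ U ∈ 𝒰, closure U = Set.univ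

/-- `ONE` has a winning strategy in the game `G₁(𝒦, 𝒟)` on `X`: there is a function `σ` assigning
to every finite sequence of previous picks of `TWO` a member of `𝒦` such that no infinite play in
which `ONE` follows `σ` (so in inning `n` player `TWO` picks some
`U n ∈ σ [U 0, …, U (n - 1)]`) is won by `TWO`, i.e. `{U n : n ∈ ℕ} ∉ 𝒟`. -/
def OneWins (X : Type u) [TopologicalSpace X] : Prop :=
  ∃ σ : List (Set X) → Set (Set X), (∀ h, InK (σ h)) ∧
    ∀ U : ℕ → Set X, (∀ n, U n ∈ σ ((List.range n).map U)) → ¬ InD (range U)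

/-- A cellular family: pairwise disjoint nonempty open subsets of `X`. -/
def IsCellular {X : Type u} [TopologicalSpace X] (𝒱 : Set (Set X)) : Prop :=
  (∀ V ∈ 𝒱, IsOpen V ∧ V.Nonempty) ∧ 𝒱.PairwiseDisjoint id

/-- The cellularity `c(X)`: the supremum of the cardinalities of the cellular families. -/
noncomputable def cellularity (X : Type u) [TopologicalSpace X] : Cardinal.{u} :=
  ⨆ 𝒱 : {𝒱 : Set (Set X) // IsCellular 𝒱}, #𝒱.1

/-- A set `Y` of reals has strong measure zero if for every sequence `ε` of positive reals there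
are intervals `[a n, b n]` of length at most `ε n` which together cover `Y`. -/
def StrongMeasureZero (Y : Set ℝ) : Prop :=
  ∀ ε : ℕ → ℝ, (∀ n, 0 < ε n) →
    ∃ a b : ℕ → ℝ, (∀ n, b n - a n ≤ ε n) ∧ Y ⊆ ⋃ n, Icc (a n) (b n)

/-- `non(SMZ)`: the least cardinality of a set of reals which is not of strong measure zero. -/
noncomputable def nonSMZ : Cardinal.{0} :=
  sInf {κ | ∃ Y : Set ℝ, ¬ StrongMeasureZero Y ∧ #Y = κ}

/-- The game cardinal `𝔧`: the least cardinal `κ` such that `ONE` has a winning strategy in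
`G₁(𝒦, 𝒟)` on every Tychonoff space `X` with `κ ≤ c(X)`, where `c(X)` is the cellularity, i.e. the
supremum of the cardinalities of the cellular families of `X`. -/
noncomputable def gameJ : Cardinal.{u} :=
  sInf {κ | ∀ (X : Type u) [TopologicalSpace X] [T35Space X], κ ≤ cellularity X → OneWins X}

/-- Weakly inaccessible cardinals: uncountable regular limit cardinals. -/
def IsWeaklyInaccessible (κ : Cardinal.{v}) : Prop :=
  ℵ₀ < κ ∧ κ.IsRegular ∧ Order.IsSuccLimit κ

end Pool.Agent.H13.GameJ
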