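import Pool.Agent.H13.GameJ.Defs

/-!
# The game cardinal `𝔧` equals `non(SMZ)`

For a topological space `X` let `𝒟` be the collection of families of open sets with dense union and
`𝒦` the collection of those `𝒰 ∈ 𝒟` whose closures cover `X`. In the game `G₁(𝒦, 𝒟)` player `ONE`
picks `𝒰 n ∈ 𝒦`, player `TWO` picks `U n ∈ 𝒰 n`, and `TWO` wins if `{U n : n ∈ ℕ} ∈ 𝒟`.
The cardinal `𝔧` is the least `κ` such that `ONE` has a winning strategy on every Tychonoff space `X`
with `c(X) ≥ κ`. We prove in ZFC (Lean) that `𝔧 = non(SMZ)`.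

* Upper bound: a maximal cellular family of size at least `non(SMZ)` is split into finitely many
  pieces according to the points of a bounded set of reals without strong measure zero.
* Lower bound: on compact extremally disconnected spaces (Gleason covers of products of spaces
  `β L`, `L` discrete) every member of `𝒦` has a finite subfamily with dense union, so a strategy of
  `ONE` can be cut down to a finitely branching tree, and `TWO` beats it by guessing the level
  functions attached to fewer than `non(SMZ)` many test sets.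
* With `c(X)` defined as a supremum, the case that `non(SMZ)` is weakly inaccessible is
  special: then a space of cellularity `non(SMZ)`, not attained, is not won by `ONE`. For singular
  `non(SMZ)` we use the Erdős–Tarski theorem, which is proved below.
-/

open Cardinal Set Topology

universe u v

namespace Pool.Agent.H13.GameJ

theorem not_smz_univ : ¬ StrongMeasureZero (Set.univ : Set ℝ) := by
  intro h
  obtain ⟨a, b, hab, hcov⟩ := h (fun n => (1/2 : ℝ)^n) (fun n => by positivity)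
  have h1 : MeasureTheory.volume (Set.univ : Set ℝ) ≤ ∑' n, MeasureTheory.volume (Icc (a n) (b n)) :=
    le_trans (MeasureTheory.measure_mono hcov) (MeasureTheory.measure_iUnion_le _)
  have h2 : ∑' n, MeasureTheory.volume (Icc (a n) (b n)) ≤ ∑' n : ℕ, ENNReal.ofReal ((1/2 : ℝ)^n) := by
    apply ENNReal.tsum_le_tsum
    intro n
    rw [Real.volume_Icc]
    exact ENNReal.ofReal_le_ofReal (hab n)
  have h3 : ∑' n : ℕ, ENNReal.ofReal ((1/2 : ℝ)^n) ≠ ⊤ := by
    have hs : Summable (fun n : ℕ => (1/2 : ℝ)^n) := summable_geometric_two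
    rw [← ENNReal.ofReal_tsum_of_nonneg (fun n => by positivity) hs]
    exact ENNReal.ofReal_ne_top
  rw [Real.volume_univ] at h1
  exact h3 (top_le_iff.mp (h1.trans h2))

theorem StrongMeasureZero.mono {Y Z : Set ℝ} (h : StrongMeasureZero Z) (hYZ : Y ⊆ Z) :
    StrongMeasureZero Y := by
  intro ε hε
  obtain ⟨a, b, h1, h2⟩ := h ε hε
  exact ⟨a, b, h1, hYZ.trans h2⟩

theorem StrongMeasureZero.iUnion {Y : ℕ → Set ℝ} (h : ∀ n, StrongMeasureZero (Y n)) :
    StrongMeasureZero (⋃ n, Y n) := by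
  intro ε hε
  choose a b h1 h2 using fun k => h k (fun n => ε (Nat.pair k n)) (fun n => hε _)
  refine ⟨fun m => a m.unpair.1 m.unpair.2, fun m => b m.unpair.1 m.unpair.2, ?_, ?_⟩
  · intro m
    have := h1 m.unpair.1 m.unpair.2
    simpa using this
  · intro x hx
    obtain ⟨k, hk⟩ := mem_iUnion.1 hx
    obtain ⟨n, hn⟩ := mem_iUnion.1 (h2 k hk)
    refine mem_iUnion.2 ⟨Nat.pair k n, ?_⟩
    simpa using hn

/-- the value `non(SMZ)` is attained by a bounded set of reals. -/
theorem exists_nonSMZ : ∃ Y : Set ℝ, ∃ M : ℝ, Y ⊆ Ico (-M) M ∧ ¬ StrongMeasureZero Y ∧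
    #Y ≤ nonSMZ := by
  have hne : {κ | ∃ Y : Set ℝ, ¬ StrongMeasureZero Y ∧ #Y = κ}.Nonempty :=
    ⟨_, Set.univ, not_smz_univ, rfl⟩
  obtain ⟨Y, hY, hc⟩ := csInf_mem hne
  by_contra hcon
  push Not at hcon
  apply hY
  have : Y = ⋃ n : ℕ, (Y ∩ Ico (-(n:ℝ)) n) := by
    ext x
    simp only [mem_iUnion, mem_inter_iff, mem_Ico]
    constructor
    · intro hx
      obtain ⟨n, hn⟩ := exists_nat_gt |x|
      refine ⟨n, hx, ?_, ?_⟩
      · have := neg_abs_le x; linarith
      · have := le_abs_self x; linarith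
    · rintro ⟨n, hx, -⟩; exact hx
  rw [this]
  apply StrongMeasureZero.iUnion
  intro n
  by_contra hn
  have := hcon (Y ∩ Ico (-(n:ℝ)) n) n inter_subset_right hn
  have h2 : #(Y ∩ Ico (-(n:ℝ)) n : Set ℝ) ≤ nonSMZ := by
    refine (Cardinal.mk_le_mk_of_subset inter_subset_left).trans ?_
    rw [hc]; rfl
  exact absurd this (not_lt.mpr h2)

theorem smz_of_card_lt {Y : Set ℝ} (h : #Y < nonSMZ) : StrongMeasureZero Y := by
  by_contra hY
  have h1 : nonSMZ ≤ #Y := csInf_le' ⟨Y, hY, rfl⟩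
  exact absurd h1 (not_le.mpr h)

theorem smz_of_countable {Y : Set ℝ} (h : Y.Countable) : StrongMeasureZero Y := by
  rcases Y.eq_empty_or_nonempty with rfl | hne
  · intro ε hε
    exact ⟨fun _ => 0, fun _ => 0, fun n => by simpa using (hε n).le, empty_subset _⟩
  · obtain ⟨f, rfl⟩ := h.exists_eq_range hne
    intro ε hε
    refine ⟨f, f, fun n => by simpa using (hε n).le, ?_⟩
    rintro _ ⟨n, rfl⟩
    exact mem_iUnion.2 ⟨n, by simp⟩

theorem aleph0_lt_nonSMZ : ℵ₀ < nonSMZ := by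
  obtain ⟨Y, M, -, hY, hc⟩ := exists_nonSMZ
  by_contra h
  push Not at h
  apply hY
  apply smz_of_countable
  rw [← Cardinal.le_aleph0_iff_set_countable]
  exact hc.trans h

/-- Separation: any countable product of finite types embeds in the line so that closeness of the
images determines coordinates. -/
theorem exists_sep (Z : ℕ → Type u) [∀ n, Finite (Z n)] :
    ∃ r : (∀ n, Z n) → ℝ, ∃ ε : ℕ → ℝ, (∀ n, 0 < ε n) ∧
      ∀ n x y, |r x - r y| ≤ ε n → x n = y n := by
  classical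
  -- numbering of each finite type
  have hen : ∀ n, ∃ e : Z n → ℕ, Function.Injective e ∧ ∃ N, ∀ z, e z < N := by
    intro n
    obtain ⟨m, ⟨e⟩⟩ := Finite.exists_equiv_fin (Z n)
    exact ⟨fun z => (e z : ℕ), fun a b h => e.injective (Fin.ext h), m, fun z => (e z).2⟩
  choose e he N hN using hen
  let code : (∀ n, Z n) → (ℕ → Bool) := fun x m => decide (e m.unpair.1 (x m.unpair.1) = m.unpair.2)
  let φ := cantorSetHomeomorphNatToBool
  let r : (∀ n, Z n) → ℝ := fun x => (φ.symm (code x) : ℝ)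
  have hcpt : CompactSpace cantorSet := isCompact_iff_compactSpace.mp isCompact_cantorSet
  have hunif : ∀ i : ℕ, ∃ δ > 0, ∀ p q : cantorSet, dist p q < δ → φ p i = φ q i := by
    intro i
    have hc : Continuous (fun p : cantorSet => φ p i) :=
      (continuous_apply i).comp φ.continuous
    have hu := CompactSpace.uniformContinuous_of_continuous hc
    have h1 : {p : Bool × Bool | p.1 = p.2} ∈ uniformity Bool := by
      have : {p : Bool × Bool | p.1 = p.2} = SetRel.id := rfl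
      rw [discreteUniformity_iff_eq_principal_setRelId.1 inferInstance]
      exact Filter.mem_principal_self _
    have h2 := hu h1
    rw [Filter.mem_map, Metric.mem_uniformity_dist] at h2
    obtain ⟨δ, hδ, h⟩ := h2
    exact ⟨δ, hδ, fun p q hpq => h hpq⟩
  choose δ hδ hδ' using hunif
  have hmin : ∀ n, ∃ ε > 0, ∀ j < N n, ε < δ (Nat.pair n j) := by
    intro n
    obtain ⟨m, hm0, hm⟩ : ∃ m > 0, ∀ j ∈ Finset.range (N n), m ≤ δ (Nat.pair n j) := by
      by_cases hne : (Finset.range (N n)).Nonempty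
      · obtain ⟨j0, hj0, hj⟩ := Finset.exists_min_image (Finset.range (N n))
          (fun j => δ (Nat.pair n j)) hne
        exact ⟨δ (Nat.pair n j0), hδ _, hj⟩
      · refine ⟨1, one_pos, fun j hj => ?_⟩
        exact absurd ⟨j, hj⟩ hne
    refine ⟨m / 2, by positivity, fun j hj => ?_⟩
    have := hm j (Finset.mem_range.2 hj)
    linarith
  choose ε hε hε' using hmin
  refine ⟨r, ε, hε, ?_⟩
  intro n x y hxy
  by_contra hne
  have hlt : dist (φ.symm (code x)) (φ.symm (code y)) < δ (Nat.pair n (e n (x n))) := by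
    rw [Subtype.dist_eq, Real.dist_eq]
    exact lt_of_le_of_lt hxy (hε' n _ (hN n _))
  have hcode : ∀ (x : ∀ n, Z n) n j, code x (Nat.pair n j) = decide (e n (x n) = j) := by
    intro x n j
    show decide (e (Nat.unpair (Nat.pair n j)).1 (x (Nat.unpair (Nat.pair n j)).1) =
      (Nat.unpair (Nat.pair n j)).2) = _
    rw [Nat.unpair_pair]
  have := hδ' _ _ _ hlt
  rw [Homeomorph.apply_symm_apply, Homeomorph.apply_symm_apply, hcode, hcode] at this
  have h3 := of_decide_eq_true (this.symm.trans (decide_eq_true rfl))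
  exact hne (he n h3.symm)

/-- The guessing lemma: fewer than `non(SMZ)` many elements of a countable product of finite types
can all be met by a single element. -/
theorem guess {K : Type v} (Z : ℕ → Type u) [∀ n, Finite (Z n)] [∀ n, Nonempty (Z n)]
    (hK : #K < lift.{v} nonSMZ) (F : K → ∀ n, Z n) :
    ∃ g : ∀ n, Z n, ∀ k, ∃ n, F k n = g n := by
  classical
  obtain ⟨r, ε, hε, hr⟩ := exists_sep Z
  have hcard : #(range (fun k => r (F k))) < nonSMZ := by
    have h1 : lift.{v} #(range (fun k => r (F k))) ≤ lift.{0} #K := Cardinal.mk_range_le_lift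
    rw [Cardinal.lift_uzero] at h1
    have h2 := h1.trans_lt hK
    rwa [Cardinal.lift_lt] at h2
  obtain ⟨a, b, hab, hcov⟩ := smz_of_card_lt hcard ε hε
  let g : ∀ n, Z n := fun n =>
    if h : ∃ k, r (F k) ∈ Icc (a n) (b n) then F h.choose n else Classical.arbitrary _
  refine ⟨g, fun k => ?_⟩
  obtain ⟨n, hn⟩ := mem_iUnion.1 (hcov ⟨k, rfl⟩)
  refine ⟨n, ?_⟩
  have hex : ∃ k, r (F k) ∈ Icc (a n) (b n) := ⟨k, hn⟩
  have hg : g n = F hex.choose n := dif_pos hex
  rw [hg]
  apply hr n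
  have h1 := hex.choose_spec
  have h2 := hab n
  generalize hex.choose = k' at h1
  simp only [mem_Icc] at hn h1
  rw [abs_le]
  constructor <;> linarith [hn.1, hn.2, h1.1, h1.2]

/-- Every cellular family extends to one with dense union. -/
theorem IsCellular.exists_maximal {X : Type u} [TopologicalSpace X] {𝒱 : Set (Set X)}
    (h : IsCellular 𝒱) : ∃ 𝒲 : Set (Set X), 𝒱 ⊆ 𝒲 ∧ IsCellular 𝒲 ∧ Dense (⋃₀ 𝒲) := by
  obtain ⟨𝒲, hsub, hmax⟩ := zorn_subset_nonempty {𝒰 : Set (Set X) | IsCellular 𝒰} (by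
    intro c hc hchain hne
    refine ⟨⋃₀ c, ⟨?_, ?_⟩, fun s hs => subset_sUnion_of_mem hs⟩
    · rintro V ⟨s, hs, hV⟩
      exact (hc hs).1 V hV
    · rintro V ⟨s, hs, hV⟩ W ⟨t, ht, hW⟩ hVW
      rcases hchain.total hs ht with hst | hts
      · exact (hc ht).2 (hst hV) hW hVW
      · exact (hc hs).2 hV (hts hW) hVW) 𝒱 h
  refine ⟨𝒲, hsub, hmax.prop, ?_⟩
  rw [dense_iff_inter_open]
  intro U hU hUne
  by_contra hcon
  rw [not_nonempty_iff_eq_empty] at hcon
  have hins : IsCellular (insert U 𝒲) := by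
    refine ⟨?_, ?_⟩
    · rintro V (rfl | hV)
      · exact ⟨hU, hUne⟩
      · exact hmax.prop.1 V hV
    · refine hmax.prop.2.insert ?_
      intro V hV _
      simp only [id]
      rw [Set.disjoint_left]
      intro x hxU hxV
      have : x ∈ U ∩ ⋃₀ 𝒲 := ⟨hxU, V, hV, hxV⟩
      rw [hcon] at this
      exact this
  have hmem : U ∈ 𝒲 := hmax.le_of_ge hins (subset_insert U 𝒲) (mem_insert U 𝒲)
  obtain ⟨x, hx⟩ := hUne
  have : x ∈ U ∩ ⋃₀ 𝒲 := ⟨hx, U, hmem, hx⟩
  rw [hcon] at this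
  exact this

/-- If `X` has a cellular family of cardinality at least `non(SMZ)` then `ONE` wins. -/
theorem oneWins_of_cellular {X : Type u} [TopologicalSpace X] {𝒱 : Set (Set X)}
    (h : IsCellular 𝒱) (hc : lift.{u} nonSMZ ≤ #𝒱) : OneWins X := by
  classical
  obtain ⟨𝒲, hsub, hW, hdense⟩ := h.exists_maximal
  obtain ⟨Y, M, hYM, hY, hYc⟩ := exists_nonSMZ
  have hcW : lift.{u} #Y ≤ lift.{0} #𝒲 := by
    rw [Cardinal.lift_uzero]
    exact ((Cardinal.lift_le.2 hYc).trans hc).trans (Cardinal.mk_le_mk_of_subset hsub)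
  obtain ⟨emb⟩ := Cardinal.lift_mk_le'.1 hcW
  have hYne : Nonempty Y := by
    by_contra hcon
    rw [not_nonempty_iff] at hcon
    apply hY
    exact smz_of_countable (Set.countable_coe_iff.1 inferInstance)
  let y : 𝒲 → Y := Function.invFun emb
  have hy : Function.Surjective y := Function.invFun_surjective emb.injective
  unfold StrongMeasureZero at hY
  push Not at hY
  obtain ⟨ε, hε, hcov⟩ := hY
  -- the index of a point at level n
  let idx : ℕ → ℝ → ℕ := fun n t => ⌊(t + M) / ε n⌋₊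
  let Us : ℕ → ℕ → Set X := fun n i => ⋃ V : 𝒲, ⋃ (_ : idx n (y V) = i), V.1
  let k : ℕ → ℕ := fun n => ⌊(2 * M) / ε n⌋₊
  have hUs_open : ∀ n i, IsOpen (Us n i) := by
    intro n i
    refine isOpen_iUnion fun V => isOpen_iUnion fun _ => (hW.1 V.1 V.2).1
  let fam : ℕ → Set (Set X) := fun n => (Us n) '' (Finset.range (k n + 1) : Set ℕ)
  have hcover : ∀ n, ⋃₀ 𝒲 ⊆ ⋃ i ∈ Finset.range (k n + 1), Us n i := by
    rintro n x ⟨V, hV, hxV⟩
    have hmem := hYM (y ⟨V, hV⟩).2
    have hle : idx n (y ⟨V, hV⟩) ≤ k n := by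
      apply Nat.floor_le_floor
      apply div_le_div_of_nonneg_right _ (hε n).le
      have := hmem.2
      linarith
    refine mem_iUnion₂.2 ⟨idx n (y ⟨V, hV⟩), Finset.mem_range.2 (Nat.lt_succ_of_le hle), ?_⟩
    exact mem_iUnion₂.2 ⟨⟨V, hV⟩, rfl, hxV⟩
  have hfamK : ∀ n, InK (fam n) := by
    intro n
    have hun : ⋃₀ fam n = ⋃ i ∈ Finset.range (k n + 1), Us n i := by
      simp [fam, sUnion_image]
    refine ⟨⟨?_, ?_⟩, ?_⟩
    · rintro _ ⟨i, -, rfl⟩
      exact hUs_open n i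
    · rw [hun]
      exact hdense.mono (hcover n)
    · have h1 : closure (⋃ i ∈ Finset.range (k n + 1), Us n i) = Set.univ :=
        (hdense.mono (hcover n)).closure_eq
      rw [Finset.closure_biUnion] at h1
      rw [← h1]
      simp [fam]
  refine ⟨fun h => fam h.length, fun h => hfamK _, ?_⟩
  intro U hU hD
  have hU' : ∀ n, ∃ i, U n = Us n i := by
    intro n
    obtain ⟨i, -, hi⟩ := hU n
    simp only [List.length_map, List.length_range] at hi
    exact ⟨i, hi.symm⟩
  choose i hi using hU'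
  have := hcov (fun n => -M + i n * ε n) (fun n => -M + (i n + 1) * ε n)
    (fun n => by nlinarith)
  rw [Set.not_subset] at this
  obtain ⟨t, htY, ht⟩ := this
  obtain ⟨V, hV⟩ := hy ⟨t, htY⟩
  obtain ⟨hVo, hVne⟩ := hW.1 V.1 V.2
  obtain ⟨x, hxV, S, ⟨n, rfl⟩, hxS⟩ := hD.2.inter_open_nonempty V.1 hVo hVne
  simp only [hi n] at hxS
  obtain ⟨V', hV', hxV'⟩ := mem_iUnion₂.1 hxS
  have hVV' : V' = V := by
    by_contra hne
    exact (hW.2 V'.2 V.2 (fun h => hne (Subtype.ext h))).le_bot ⟨hxV', hxV⟩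
  subst hVV'
  apply ht
  refine mem_iUnion.2 ⟨n, ?_⟩
  rw [hV] at hV'
  have hpos : 0 ≤ (t + M) / ε n := by
    have := (hYM htY).1
    apply div_nonneg _ (hε n).le
    linarith
  have h1 := Nat.floor_le hpos
  have h2 := Nat.lt_floor_add_one ((t + M) / ε n)
  simp only [idx] at hV'
  rw [hV'] at h1 h2
  rw [le_div_iff₀ (hε n)] at h1
  rw [div_lt_iff₀ (hε n)] at h2
  constructor <;> linarith

/-- General criterion for `ONE` not to have a winning strategy. -/
theorem not_oneWins {X : Type u} [TopologicalSpace X] [Nonempty X]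
    (hfin : ∀ 𝒰 : Set (Set X), InK 𝒰 → ∃ 𝒱 ⊆ 𝒰, 𝒱.Finite ∧ Dense (⋃₀ 𝒱))
    (htest : ∀ 𝒞 : Set (Set X), 𝒞.Countable → (∀ C ∈ 𝒞, IsOpen C) →
      ∃ (K : Type u) (O : K → Set X), #K < lift.{u} nonSMZ ∧
        (∀ k, IsOpen (O k) ∧ (O k).Nonempty) ∧
        ∀ 𝒱 ⊆ 𝒞, (∀ k, ∃ V ∈ 𝒱, (V ∩ O k).Nonempty) → Dense (⋃₀ 𝒱)) :
    ¬ OneWins X := by
  classical
  rintro ⟨σ, hσ, hwin⟩
  choose fin hsub hfinite hdense using fun h => hfin (σ h) (hσ h)
  have hne : ∀ h, Nonempty (fin h) := by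
    intro h
    obtain ⟨x, S, hS, -⟩ := (hdense h).inter_open_nonempty Set.univ isOpen_univ univ_nonempty |>.imp
      fun x hx => hx.2
    exact ⟨⟨S, hS⟩⟩
  let T : ℕ → Set (List (Set X)) := fun n => Nat.rec {[]}
    (fun _ t => ⋃ h ∈ t, (fun U => h ++ [U]) '' fin h) n
  have hT0 : T 0 = {[]} := rfl
  have hTs : ∀ n, T (n + 1) = ⋃ h ∈ T n, (fun U => h ++ [U]) '' fin h := fun n => rfl
  have hTfin : ∀ n, (T n).Finite := by
    intro n
    induction n with
    | zero => rw [hT0]; exact Set.finite_singleton _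
    | succ n ih =>
      rw [hTs]
      exact ih.biUnion fun h _ => (hfinite h).image _
  have hTfin' : ∀ n, Finite ↥(T n) := fun n => (hTfin n).to_subtype
  have hfinite' : ∀ h : List (Set X), Finite ↥(fin h) := fun h => (hfinite h).to_subtype
  let Z : ℕ → Type u := fun n => ∀ h : T n, fin h.1
  have hZfin : ∀ n, Finite (Z n) := fun n => by
    have h1 := hTfin' n
    have h2 : ∀ h : T n, Finite ↥(fin h.1) := fun h => hfinite' h.1
    exact @Pi.finite (T n) (fun h => ↥(fin h.1)) h1 h2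
  have hZne : ∀ n, Nonempty (Z n) := fun n => ⟨fun h => (hne h.1).some⟩
  let 𝒞 : Set (Set X) := ⋃ n, ⋃ h ∈ T n, fin h
  have h𝒞c : 𝒞.Countable :=
    Set.countable_iUnion fun n => (hTfin n).countable.biUnion fun h _ => (hfinite h).countable
  have h𝒞o : ∀ C ∈ 𝒞, IsOpen C := by
    intro C hC
    obtain ⟨n, hn⟩ := mem_iUnion.1 hC
    obtain ⟨h, -, hh⟩ := mem_iUnion₂.1 hn
    exact (hσ h).1.1 C (hsub h hh)
  obtain ⟨K, O, hK, hO, hmeet⟩ := htest 𝒞 h𝒞c h𝒞o
  have hex : ∀ k h, ∃ V : fin h, (V.1 ∩ O k).Nonempty := by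
    intro k h
    obtain ⟨x, hx, S, hS, hxS⟩ := (hdense h).inter_open_nonempty (O k) (hO k).1 (hO k).2
    exact ⟨⟨S, hS⟩, x, hxS, hx⟩
  choose f hf using hex
  let F : K → ∀ n, Z n := fun k n h => f k h.1
  obtain ⟨g, hg⟩ := guess Z hK F
  let hist : ∀ n, T n := fun n => Nat.rec ⟨[], Set.mem_singleton _⟩
    (fun n h => ⟨h.1 ++ [(g n h).1],
      mem_iUnion₂.2 ⟨h.1, h.2, (g n h).1, (g n h).2, rfl⟩⟩) n
  have hist0 : (hist 0).1 = [] := rfl
  have hists : ∀ n, (hist (n + 1)).1 = (hist n).1 ++ [(g n (hist n)).1] := fun n => rfl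
  let U : ℕ → Set X := fun n => (g n (hist n)).1
  have hhist : ∀ n, (List.range n).map U = (hist n).1 := by
    intro n
    induction n with
    | zero => rfl
    | succ n ih => rw [List.range_succ, List.map_append, ih, hists]; rfl
  have hUmem : ∀ n, U n ∈ fin (hist n).1 := fun n => (g n (hist n)).2
  apply hwin U
  · intro n
    rw [hhist]
    exact hsub _ (hUmem n)
  · have hsub𝒞 : range U ⊆ 𝒞 := by
      rintro _ ⟨n, rfl⟩
      exact mem_iUnion.2 ⟨n, mem_iUnion₂.2 ⟨(hist n).1, (hist n).2, hUmem n⟩⟩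
    refine ⟨fun C hC => h𝒞o C (hsub𝒞 hC), hmeet _ hsub𝒞 ?_⟩
    intro k
    obtain ⟨n, hn⟩ := hg k
    refine ⟨U n, ⟨n, rfl⟩, ?_⟩
    have : U n = (f k (hist n).1).1 := by
      show (g n (hist n)).1 = _
      rw [← hn]
    rw [this]
    exact hf k _

/-- In a compact extremally disconnected space every member of `𝒦` has a finite subfamily whose
union is dense. -/
theorem finite_of_extremallyDisconnected {X : Type u} [TopologicalSpace X] [CompactSpace X]
    [ExtremallyDisconnected X] (𝒰 : Set (Set X)) (h : InK 𝒰) :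
    ∃ 𝒱 ⊆ 𝒰, 𝒱.Finite ∧ Dense (⋃₀ 𝒱) := by
  obtain ⟨⟨hopen, -⟩, hcov⟩ := h
  obtain ⟨t, ht, htf, htc⟩ := isCompact_univ.elim_finite_subcover_image (b := 𝒰)
    (c := fun U => closure U)
    (fun U hU => ExtremallyDisconnected.open_closure U (hopen U hU)) (by rw [hcov])
  refine ⟨t, ht, htf, ?_⟩
  rw [dense_iff_closure_eq, eq_univ_iff_forall]
  intro x
  obtain ⟨U, hU, hx⟩ := mem_iUnion₂.1 (htc (mem_univ x))
  exact closure_mono (subset_sUnion_of_mem hU) hx

theorem le_cellularity {X : Type u} [TopologicalSpace X] {𝒱 : Set (Set X)} (h : IsCellular 𝒱) :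
    #𝒱 ≤ cellularity X := by
  unfold cellularity
  exact le_ciSup (f := fun 𝒱 : {𝒱 : Set (Set X) // IsCellular 𝒱} => #𝒱.1)
    Cardinal.bddAbove_of_small ⟨𝒱, h⟩

theorem exists_of_lt_cellularity {X : Type u} [TopologicalSpace X] {κ : Cardinal.{u}}
    (h : κ < cellularity X) : ∃ 𝒱 : Set (Set X), IsCellular 𝒱 ∧ κ < #𝒱 := by
  obtain ⟨𝒱, h𝒱⟩ := exists_lt_of_lt_ciSup' h
  exact ⟨𝒱.1, 𝒱.2, h𝒱⟩

/-- an indexed family of pairwise disjoint nonempty open sets gives a cellular family -/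
theorem exists_cellular_of_family {X : Type u} [TopologicalSpace X] {I : Type u} (V : I → Set X)
    (ho : ∀ i, IsOpen (V i)) (hne : ∀ i, (V i).Nonempty)
    (hd : ∀ i j, i ≠ j → Disjoint (V i) (V j)) :
    ∃ 𝒱 : Set (Set X), IsCellular 𝒱 ∧ #I ≤ #𝒱 := by
  have hinj : Function.Injective V := by
    intro i j hij
    by_contra hne'
    have h1 := hd i j hne'
    rw [hij, disjoint_self] at h1
    exact (hne j).ne_empty h1
  refine ⟨range V, ⟨?_, ?_⟩, (Cardinal.mk_range_eq V hinj).ge⟩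
  · rintro _ ⟨i, rfl⟩
    exact ⟨ho i, hne i⟩
  · rintro _ ⟨i, rfl⟩ _ ⟨j, rfl⟩ hij
    exact hd i j (fun h => hij (by rw [h]))

theorem isOpen_singleton_pure {K : Type u} (k : K) : IsOpen {(pure k : Ultrafilter K)} := by
  have : {(pure k : Ultrafilter K)} = {u : Ultrafilter K | {k} ∈ u} := by
    ext u
    simp only [mem_singleton_iff, mem_ofPred_eq]
    constructor
    · rintro rfl
      exact Filter.mem_pure.2 rfl
    · intro h
      obtain ⟨x, hx, hux⟩ := Ultrafilter.eq_pure_of_finite_mem (Set.finite_singleton k) h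
      rw [hux, mem_singleton_iff.1 hx]
  rw [this]
  exact ultrafilter_isOpen_basic _

theorem exists_pure_mem {K : Type u} {U : Set (Ultrafilter K)} (hU : IsOpen U)
    (hne : U.Nonempty) : ∃ k, pure k ∈ U := by
  obtain ⟨x, hx⟩ := hne
  obtain ⟨y, hy, ⟨k, rfl⟩⟩ := denseRange_pure.inter_open_nonempty U hU ⟨x, hx⟩
  exact ⟨k, hy⟩

/-! ### Finite partial functions and the `κ`-chain condition -/

section FinitePartial

variable {I : Type u} {A : I → Type u}

/-- `p` is (the graph of) a finite partial function. -/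
def Fnl (p : Finset (Σ i, A i)) : Prop := ∀ x ∈ p, ∀ y ∈ p, x.1 = y.1 → x = y

/-- Two finite partial functions disagree somewhere. -/
def Incomp (p q : Finset (Σ i, A i)) : Prop := ∃ x ∈ p, ∃ y ∈ q, x.1 = y.1 ∧ x ≠ y

theorem cc_aux {κ : Cardinal.{u}} (hκ : κ.IsRegular) (hA : ∀ i, #(A i) < κ)
    (n : ℕ) : ∀ P : Set (Finset (Σ i, A i)), (∀ p ∈ P, Fnl p) → P.Pairwise Incomp →
      (∀ p ∈ P, p.card = n) → #P < κ := by
  classical
  induction n with
  | zero =>
    intro P _ _ hcard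
    have : P ⊆ {∅} := fun p hp => Finset.card_eq_zero.1 (hcard p hp)
    calc #P ≤ #({∅} : Set (Finset (Σ i, A i))) := Cardinal.mk_le_mk_of_subset this
      _ = ((1 : ℕ) : Cardinal) := by simp
      _ < κ := hκ.nat_lt 1
  | succ n ih =>
    intro P hfn hinc hcard
    by_contra hbig
    rw [not_lt] at hbig
    by_cases hcase : ∃ x : (Σ i, A i), κ ≤ #{p | p ∈ P ∧ x ∈ p}
    · obtain ⟨x, hx⟩ := hcase
      let Q : Set (Finset (Σ i, A i)) := (fun p => p.erase x) '' {p | p ∈ P ∧ x ∈ p}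
      have hQcard : #Q = #{p | p ∈ P ∧ x ∈ p} := by
        apply Cardinal.mk_image_eq_of_injOn
        intro p hp q hq hpq
        simp only at hpq
        rw [← Finset.insert_erase hp.2, hpq, Finset.insert_erase hq.2]
      have hlt : #Q < κ := by
        apply ih
        · rintro _ ⟨p, hp, rfl⟩ y hy z hz hyz
          exact hfn p hp.1 y (Finset.mem_of_mem_erase hy) z (Finset.mem_of_mem_erase hz) hyz
        · rintro _ ⟨p, hp, rfl⟩ _ ⟨q, hq, rfl⟩ hne
          have hpq : p ≠ q := fun h => hne (by rw [h])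
          obtain ⟨y, hy, z, hz, hyz, hne'⟩ := hinc hp.1 hq.1 hpq
          have hyx : y ≠ x := by
            rintro rfl
            exact hne' (hfn q hq.1 y hq.2 z hz hyz)
          have hzx : z ≠ x := by
            rintro rfl
            exact hne' (hfn p hp.1 y hy z hp.2 hyz)
          exact ⟨y, Finset.mem_erase.2 ⟨hyx, hy⟩, z, Finset.mem_erase.2 ⟨hzx, hz⟩, hyz, hne'⟩
        · rintro _ ⟨p, hp, rfl⟩
          simp only
          rw [Finset.card_erase_of_mem hp.2, hcard p hp.1]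
          rfl
      rw [hQcard] at hlt
      exact absurd hlt (not_lt.2 hx)
    · push Not at hcase
      have hne : P.Nonempty := by
        rw [nonempty_iff_ne_empty]
        rintro rfl
        simp only [Cardinal.mk_eq_zero] at hbig
        exact absurd hbig (not_le.2 hκ.pos)
      obtain ⟨p0, hp0⟩ := hne
      have hcov : P ⊆ {p0} ∪ ⋃ x : p0, ⋃ c : A x.1.1, {p | p ∈ P ∧ (⟨x.1.1, c⟩ : Σ i, A i) ∈ p} := by
        intro q hq
        by_cases hqp : q = p0
        · left; exact hqp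
        · right
          obtain ⟨y, hy, z, hz, hyz, -⟩ := hinc hp0 hq (Ne.symm hqp)
          obtain ⟨i, a⟩ := y
          obtain ⟨j, b⟩ := z
          simp only at hyz
          subst hyz
          exact mem_iUnion₂.2 ⟨⟨⟨i, a⟩, hy⟩, b, hq, hz⟩
      have h1 : #(⋃ x : p0, ⋃ c : A x.1.1, {p | p ∈ P ∧ (⟨x.1.1, c⟩ : Σ i, A i) ∈ p} :
          Set (Finset (Σ i, A i))) < κ := by
        rw [Cardinal.card_iUnion_lt_iff_forall_of_isRegular hκ]
        · intro x
          rw [Cardinal.card_iUnion_lt_iff_forall_of_isRegular hκ (hA _)]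
          intro c
          exact hcase _
        · exact (Cardinal.lt_aleph0_of_finite _).trans_le hκ.aleph0_le
      have h2 : #P < κ := by
        refine (Cardinal.mk_le_mk_of_subset hcov).trans_lt ((Cardinal.mk_union_le _ _).trans_lt ?_)
        refine Cardinal.add_lt_of_lt hκ.aleph0_le ?_ h1
        have : #({p0} : Set (Finset (Σ i, A i))) = ((1 : ℕ) : Cardinal) := by simp
        rw [this]
        exact hκ.nat_lt 1
      exact absurd h2 (not_lt.2 hbig)

/-- the `κ`-chain condition for finite partial functions -/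
theorem cc {κ : Cardinal.{u}} (hκ : κ.IsRegular) (hκ' : ℵ₀ < κ) (hA : ∀ i, #(A i) < κ)
    (P : Set (Finset (Σ i, A i))) (hP : ∀ p ∈ P, Fnl p) (hinc : P.Pairwise Incomp) : #P < κ := by
  have : P = ⋃ n : ULift.{u} ℕ, {p | p ∈ P ∧ p.card = n.down} := by
    ext p
    simp only [mem_iUnion, mem_ofPred_eq]
    exact ⟨fun h => ⟨⟨p.card⟩, h, rfl⟩, fun ⟨_, h, _⟩ => h⟩
  rw [this, Cardinal.card_iUnion_lt_iff_forall_of_isRegular hκ (by simpa using hκ')]
  intro n
  apply cc_aux hκ hA n.down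
  · exact fun p hp => hP p hp.1
  · exact hinc.mono fun p hp => hp.1
  · exact fun p hp => hp.2

end FinitePartial

/-! ### The Gleason cover of a compact Hausdorff space -/

theorem projective_ultrafilter (D : Type u) : CompactT2.Projective (Ultrafilter D) := by
  intro Y Z _ _ _ _ _ _ f g hf hg g_sur
  let s : Z → Y := fun z => Classical.choose <| g_sur z
  have hs : g ∘ s = id := funext fun z => Classical.choose_spec (g_sur z)
  let t := s ∘ f ∘ (pure : D → Ultrafilter D)
  let h : Ultrafilter D → Y := Ultrafilter.extend t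
  have hh : Continuous h := continuous_ultrafilter_extend t
  refine ⟨h, hh, denseRange_pure.equalizer (hg.comp hh) hf ?_⟩
  rw [Function.comp_assoc, ultrafilter_extend_extends t, ← Function.comp_assoc, hs,
    Function.id_comp]

theorem exists_gleason (Y : Type u) [TopologicalSpace Y] [CompactSpace Y] [T2Space Y] :
    ∃ (E : Type u) (_ : TopologicalSpace E) (_ : CompactSpace E) (_ : T2Space E)
      (_ : ExtremallyDisconnected E) (ρ : E → Y), Continuous ρ ∧ Function.Surjective ρ ∧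
      ∀ E₀ : Set E, E₀ ≠ Set.univ → IsClosed E₀ → ρ '' E₀ ≠ Set.univ := by
  let X : Ultrafilter Y → Y := Ultrafilter.extend id
  have hX : Continuous X := continuous_ultrafilter_extend id
  have hXs : Function.Surjective X := fun y => ⟨pure y, ultrafilter_extend_pure id y⟩
  obtain ⟨E, hEc, hEonto, hEmin⟩ := exists_compact_surjective_zorn_subset hX hXs
  let ρ : E → Y := E.domRestrict X
  have hρ : Continuous ρ := hX.continuousOn.domRestrict
  have hρs : Function.Surjective ρ := fun a => by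
    obtain ⟨d, hd, rfl⟩ : a ∈ X '' E := hEonto ▸ mem_univ a
    exact ⟨⟨d, hd⟩, rfl⟩
  have hproj : CompactT2.Projective E := by
    obtain ⟨h, hh, hcomp⟩ := projective_ultrafilter Y hX hρ hρs
    -- `h` restricts to the identity on `E`
    have hid : ∀ e : E, h e.1 = e := by
      intro e
      by_contra hne
      obtain ⟨U, V, hU, hV, hhU, heV, hdisj⟩ := t2_separation hne
      let W : Set E := V ∩ (fun e : E => h e.1) ⁻¹' U
      have hWo : IsOpen W := hV.inter (hU.preimage (hh.comp continuous_subtype_val))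
      have heW : e ∈ W := ⟨heV, hhU⟩
      have hWne : Wᶜ ≠ Set.univ := by
        rw [Ne, compl_univ_iff]
        exact (Set.nonempty_iff_ne_empty.1 ⟨e, heW⟩)
      apply hEmin Wᶜ hWne hWo.isClosed_compl
      rw [eq_univ_iff_forall]
      intro y
      obtain ⟨e', he'⟩ := hρs y
      by_cases hmem : e' ∈ W
      · refine ⟨h e'.1, ?_, ?_⟩
        · intro hcon
          exact hdisj.le_bot ⟨hmem.2, hcon.1⟩
        · have := congrFun hcomp e'.1
          simp only [Function.comp] at this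
          show ρ (h e'.1) = y
          rw [this, ← he']
          rfl
      · exact ⟨e', hmem, he'⟩
    intro A B _ _ _ _ _ _ f g hf hg hgs
    obtain ⟨k, hk, hkc⟩ := projective_ultrafilter Y (hf.comp hh) hg hgs
    refine ⟨fun e => k e.1, hk.comp continuous_subtype_val, ?_⟩
    funext e
    have := congrFun hkc e.1
    simp only [Function.comp] at this ⊢
    rw [this, hid]
  exact ⟨E, inferInstance, hEc, inferInstance, hproj.extremallyDisconnected, ρ, hρ, hρs, hEmin⟩

section Irreducible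

variable {E Y : Type u} {ρ : E → Y}

/-- The small image of a set under a map. -/
def smallImage (ρ : E → Y) (G : Set E) : Set Y := (ρ '' Gᶜ)ᶜ

theorem isOpen_smallImage [TopologicalSpace E] [TopologicalSpace Y] [CompactSpace E] [T2Space Y]
    (hρ : Continuous ρ) {G : Set E} (hG : IsOpen G) : IsOpen (smallImage ρ G) :=
  ((hG.isClosed_compl.isCompact.image hρ).isClosed).isOpen_compl

theorem smallImage_nonempty [TopologicalSpace E]
    (hmin : ∀ E₀ : Set E, E₀ ≠ Set.univ → IsClosed E₀ → ρ '' E₀ ≠ Set.univ)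
    {G : Set E} (hG : IsOpen G) (hne : G.Nonempty) : (smallImage ρ G).Nonempty := by
  have h1 : Gᶜ ≠ Set.univ := by
    rw [Ne, compl_univ_iff]
    exact hne.ne_empty
  exact Set.nonempty_compl.2 (hmin _ h1 hG.isClosed_compl)

theorem mem_of_mem_smallImage {G : Set E} {e : E} (h : ρ e ∈ smallImage ρ G) : e ∈ G := by
  by_contra hcon
  exact h ⟨e, hcon, rfl⟩

end Irreducible

section Product

variable {I : Type u} {A : I → Type u}

/-- The basic open subset of `∏ i, β (A i)` given by a finite partial function. -/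
def B (p : Finset (Σ i, A i)) : Set (∀ i, Ultrafilter (A i)) :=
  {y | ∀ x ∈ p, y x.1 = pure x.2}

theorem isOpen_B (p : Finset (Σ i, A i)) : IsOpen (B p) := by
  have : B p = ⋂ x ∈ p, (fun y : ∀ i, Ultrafilter (A i) => y x.1) ⁻¹' {(pure x.2)} := by
    ext y
    simp [B]
  rw [this]
  exact isOpen_biInter_finset fun x _ => (isOpen_singleton_pure x.2).preimage (continuous_apply x.1)

theorem B_nonempty [∀ i, Nonempty (A i)] {p : Finset (Σ i, A i)} (hp : Fnl p) :
    (B p).Nonempty := by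
  classical
  refine ⟨fun i => if h : ∃ a, (⟨i, a⟩ : Σ i, A i) ∈ p then pure h.choose
    else pure (Classical.arbitrary _), ?_⟩
  rintro ⟨i, a⟩ hx
  have hex : ∃ a, (⟨i, a⟩ : Σ i, A i) ∈ p := ⟨a, hx⟩
  simp only
  rw [dif_pos hex]
  have h1 := hp _ hex.choose_spec _ hx rfl
  simp only [Sigma.mk.injEq, heq_eq_eq, true_and] at h1
  rw [h1]

theorem not_incomp_of_mem {p q : Finset (Σ i, A i)} {y : ∀ i, Ultrafilter (A i)}
    (hp : y ∈ B p) (hq : y ∈ B q) : ¬ Incomp p q := by
  rintro ⟨⟨i, a⟩, hx, ⟨j, b⟩, hz, hij, hne⟩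
  simp only at hij
  subst hij
  apply hne
  have h1 := hp _ hx
  have h2 := hq _ hz
  simp only at h1 h2
  rw [h1] at h2
  rw [Ultrafilter.pure_injective h2]

theorem exists_B_subset {O : Set (∀ i, Ultrafilter (A i))} (hO : IsOpen O) (hne : O.Nonempty) :
    ∃ p : Finset (Σ i, A i), Fnl p ∧ B p ⊆ O := by
  classical
  obtain ⟨y, hy⟩ := hne
  obtain ⟨F, u, hu, hsub⟩ := isOpen_pi_iff.1 hO y hy
  have hex : ∀ i : F, ∃ a, pure a ∈ u i.1 := fun i =>
    exists_pure_mem (hu i.1 i.2).1 ⟨_, (hu i.1 i.2).2⟩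
  choose a ha using hex
  refine ⟨Finset.univ.image (fun i : F => (⟨i.1, a i⟩ : Σ i, A i)), ?_, ?_⟩
  · intro x hx z hz hxz
    simp only [Finset.mem_image, Finset.mem_univ, true_and] at hx hz
    obtain ⟨i, rfl⟩ := hx
    obtain ⟨j, rfl⟩ := hz
    simp only at hxz
    have : i = j := Subtype.ext hxz
    subst this
    rfl
  · intro z hz
    apply hsub
    intro i hi
    have := hz ⟨i, a ⟨i, hi⟩⟩ (by
      simp only [Finset.mem_image, Finset.mem_univ, true_and]
      exact ⟨⟨i, hi⟩, rfl⟩)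
    simp only at this
    rw [this]
    exact ha ⟨i, hi⟩

theorem mk_finset_lt {κ : Cardinal.{u}} (hκ : ℵ₀ < κ) {S : Type u} (hS : #S < κ) :
    #(Finset S) < κ := by
  rcases finite_or_infinite S with h | h
  · exact (Cardinal.lt_aleph0_of_finite _).trans hκ
  · rwa [Cardinal.mk_finset_of_infinite]

variable {E : Type u} [TopologicalSpace E] [CompactSpace E] {ρ : E → ∀ i, Ultrafilter (A i)}

theorem test_family [∀ i, Nonempty (A i)] {κ : Cardinal.{u}} (hκ : κ.IsRegular) (hκ' : ℵ₀ < κ)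
    (hA : ∀ i, #(A i) < κ)
    (hρ : Continuous ρ) (hρs : Function.Surjective ρ)
    (hmin : ∀ E₀ : Set E, E₀ ≠ Set.univ → IsClosed E₀ → ρ '' E₀ ≠ Set.univ)
    (𝒞 : Set (Set E)) (hc : 𝒞.Countable) (ho : ∀ C ∈ 𝒞, IsOpen C) :
    ∃ (K : Type u) (O : K → Set E), #K < κ ∧ (∀ k, IsOpen (O k) ∧ (O k).Nonempty) ∧
      ∀ 𝒱 ⊆ 𝒞, (∀ k, ∃ V ∈ 𝒱, (V ∩ O k).Nonempty) → Dense (⋃₀ 𝒱) := by
  classical
  -- maximal families of pairwise incompatible basic sets inside the small image of `C`
  have hmax : ∀ C : Set E, ∃ P : Set (Finset (Σ i, A i)),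
      (∀ p ∈ P, Fnl p ∧ B p ⊆ smallImage ρ C) ∧ P.Pairwise Incomp ∧
      ∀ q, Fnl q → B q ⊆ smallImage ρ C → ∃ p ∈ P, ¬ Incomp p q := by
    intro C
    obtain ⟨P, hP⟩ := zorn_subset {P : Set (Finset (Σ i, A i)) |
      (∀ p ∈ P, Fnl p ∧ B p ⊆ smallImage ρ C) ∧ P.Pairwise Incomp} (by
        intro c hc hchain
        refine ⟨⋃₀ c, ⟨?_, ?_⟩, fun s hs => subset_sUnion_of_mem hs⟩
        · rintro p ⟨s, hs, hp⟩
          exact (hc hs).1 p hp
        · rintro p ⟨s, hs, hp⟩ q ⟨t, ht, hq⟩ hpq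
          rcases hchain.total hs ht with hst | hts
          · exact (hc ht).2 (hst hp) hq hpq
          · exact (hc hs).2 hp (hts hq) hpq)
    refine ⟨P, hP.prop.1, hP.prop.2, ?_⟩
    intro q hq hqC
    by_contra hcon
    push Not at hcon
    by_cases hqP : q ∈ P
    · obtain ⟨y, hy⟩ := B_nonempty hq
      exact not_incomp_of_mem hy hy (hcon q hqP)
    · apply hqP
      apply hP.le_of_ge (y := insert q P) _ (subset_insert q P) (mem_insert q P)
      refine ⟨?_, ?_⟩
      · rintro p (rfl | hp)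
        · exact ⟨hq, hqC⟩
        · exact hP.prop.1 p hp
      · rintro p (rfl | hp) r (rfl | hr) hpr
        · exact absurd rfl hpr
        · obtain ⟨x, hx, z, hz, h1, h2⟩ := hcon r hr
          exact ⟨z, hz, x, hx, h1.symm, h2.symm⟩
        · exact hcon p hp
        · exact hP.prop.2 hp hr hpr
  choose P hP hPinc hPmax using hmax
  have hPcard : ∀ C, #(P C) < κ := fun C => cc hκ hκ' hA (P C) (fun p hp => (hP C p hp).1) (hPinc C)
  let J : Set I := ⋃ C : 𝒞, ⋃ p : P C.1, ((p.1.image Sigma.fst : Finset I) : Set I)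
  have h𝒞card : #𝒞 < κ := by
    have := (Cardinal.le_aleph0_iff_set_countable.2 hc)
    exact this.trans_lt hκ'
  have hJ : #J < κ := by
    rw [Cardinal.card_iUnion_lt_iff_forall_of_isRegular hκ h𝒞card]
    intro C
    rw [Cardinal.card_iUnion_lt_iff_forall_of_isRegular hκ (hPcard _)]
    intro p
    exact (Cardinal.lt_aleph0_of_finite _).trans_le hκ.aleph0_le
  let S : Set (Σ i, A i) := ⋃ i : J, range (Sigma.mk i.1)
  have hS : #S < κ := by
    rw [Cardinal.card_iUnion_lt_iff_forall_of_isRegular hκ hJ]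
    intro i
    exact Cardinal.mk_range_le.trans_lt (hA _)
  have hSmem : ∀ x : Σ i, A i, x.1 ∈ J → x ∈ S := by
    rintro ⟨i, a⟩ hx
    exact mem_iUnion.2 ⟨⟨i, hx⟩, a, rfl⟩
  let K : Type u := {q : Finset S // Fnl (q.image Subtype.val)}
  have hK : #K < κ := (Cardinal.mk_subtype_le _).trans_lt (mk_finset_lt hκ' hS)
  refine ⟨K, fun q => ρ ⁻¹' (B (q.1.image Subtype.val)), hK, ?_, ?_⟩
  · intro q
    refine ⟨(isOpen_B _).preimage hρ, ?_⟩
    obtain ⟨y, hy⟩ := B_nonempty q.2
    obtain ⟨e, rfl⟩ := hρs y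
    exact ⟨e, hy⟩
  · intro 𝒱 h𝒱 hmeet
    rw [dense_iff_inter_open]
    intro G hG hGne
    obtain ⟨q, hq, hqG⟩ := exists_B_subset (isOpen_smallImage hρ hG)
      (smallImage_nonempty hmin hG hGne)
    -- the restriction of q to J
    let q' : Finset (Σ i, A i) := q.filter (fun x => x.1 ∈ J)
    have hq'sub : q' ⊆ q := Finset.filter_subset _ _
    have hq' : Fnl q' := fun x hx z hz h => hq x (hq'sub hx) z (hq'sub hz) h
    let q'' : Finset S := q'.subtype (fun x => x ∈ S)
    have hq''im : q''.image Subtype.val = q' := by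
      ext x
      simp only [q'', Finset.mem_image, Finset.mem_subtype, Subtype.exists, exists_and_left,
        exists_prop, exists_eq_right_right]
      constructor
      · rintro ⟨h1, -⟩; exact h1
      · intro h
        exact ⟨h, hSmem x (Finset.mem_filter.1 h).2⟩
    obtain ⟨V, hV, hVne⟩ := hmeet ⟨q'', by rw [hq''im]; exact hq'⟩
    simp only [hq''im] at hVne
    have hVo : IsOpen (V ∩ ρ ⁻¹' (B q')) := (ho V (h𝒱 hV)).inter ((isOpen_B _).preimage hρ)
    obtain ⟨r, hr, hrsub⟩ := exists_B_subset (isOpen_smallImage hρ hVo)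
      (smallImage_nonempty hmin hVo hVne)
    have hrV : B r ⊆ smallImage ρ V := by
      intro y hy
      obtain ⟨e, rfl⟩ := hρs y
      intro hcon
      obtain ⟨e', he', hee'⟩ := hcon
      have := hrsub hy
      rw [← hee'] at this
      exact he' (mem_of_mem_smallImage this).1
    have hrq' : B r ⊆ B q' := by
      intro y hy
      obtain ⟨e, rfl⟩ := hρs y
      exact (mem_of_mem_smallImage (hrsub hy)).2
    obtain ⟨p, hp, hpr⟩ := hPmax V r hr hrV
    -- p is compatible with q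
    have hpfn := (hP V p hp).1
    have hpq : ¬ Incomp p q := by
      rintro ⟨⟨i, a⟩, hx, ⟨j, b⟩, hz, hij, hne⟩
      simp only at hij
      subst hij
      have hiJ : i ∈ J := by
        refine mem_iUnion₂.2 ⟨⟨V, h𝒱 hV⟩, ⟨p, hp⟩, ?_⟩
        simp only [Finset.coe_image, mem_image, Finset.mem_coe]
        exact ⟨_, hx, rfl⟩
      have hz' : (⟨i, b⟩ : Σ i, A i) ∈ q' := Finset.mem_filter.2 ⟨hz, hiJ⟩
      -- compare with r: use a point of B r ∩ B p
      have hrp : (⟨i, b⟩ : Σ i, A i) ∈ r := by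
        by_contra hnot
        -- otherwise B r would not be contained in B q'
        have hnotr : ∀ c, (⟨i, c⟩ : Σ i, A i) ∈ r → c = b := by
          intro c hc
          obtain ⟨y, hy⟩ := B_nonempty hr
          have h1 := hrq' hy _ hz'
          have h2 := hy _ hc
          simp only at h1 h2
          rw [h2] at h1
          exact Ultrafilter.pure_injective h1
        have hnotr' : ∀ c, (⟨i, c⟩ : Σ i, A i) ∉ r := by
          intro c hc
          have := hnotr c hc
          subst this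
          exact hnot hc
        obtain ⟨y, hy⟩ := B_nonempty hr
        have hy2 : Function.update y i (pure a) ∈ B r := by
          rintro ⟨j, c⟩ hjc
          have hji : j ≠ i := by
            rintro rfl
            exact hnotr' c hjc
          simp only
          rw [Function.update_of_ne hji]
          exact hy _ hjc
        have h1 := hrq' hy2 _ hz'
        simp only [Function.update_self] at h1
        exact hne (by rw [Ultrafilter.pure_injective h1])
      exact hpr ⟨_, hx, _, hrp, rfl, hne⟩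
    have hfn : Fnl (p ∪ q) := by
      intro x hx z hz hxz
      by_contra hne
      rw [Finset.mem_union] at hx hz
      rcases hx with hx | hx <;> rcases hz with hz | hz
      · exact hne (hpfn x hx z hz hxz)
      · exact hpq ⟨x, hx, z, hz, hxz, hne⟩
      · exact hpq ⟨z, hz, x, hx, hxz.symm, Ne.symm hne⟩
      · exact hne (hq x hx z hz hxz)
    obtain ⟨y, hy⟩ := B_nonempty hfn
    obtain ⟨e, rfl⟩ := hρs y
    have hep : ρ e ∈ B p := fun x hx => hy x (Finset.mem_union_left _ hx)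
    have heq : ρ e ∈ B q := fun x hx => hy x (Finset.mem_union_right _ hx)
    exact ⟨e, mem_of_mem_smallImage (hqG heq), V, hV, mem_of_mem_smallImage ((hP V p hp).2 hep)⟩

end Product

/-- Gleason covers of products `∏ i, β (A i)`: a common package of their properties. -/
theorem exists_cover {I : Type u} (A : I → Type u) [∀ i, Nonempty (A i)] {κ : Cardinal.{u}}
    (hκ : κ.IsRegular) (hκ' : ℵ₀ < κ) (hA : ∀ i, #(A i) < κ) (hle : κ ≤ lift.{u} nonSMZ) :
    ∃ (E : Type u) (_ : TopologicalSpace E) (_ : CompactSpace E) (_ : T2Space E)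
      (ρ : E → ∀ i, Ultrafilter (A i)), Continuous ρ ∧ Function.Surjective ρ ∧
      (∀ E₀ : Set E, E₀ ≠ Set.univ → IsClosed E₀ → ρ '' E₀ ≠ Set.univ) ∧
      (∀ i, ∃ 𝒱 : Set (Set E), IsCellular 𝒱 ∧ #(A i) ≤ #𝒱) ∧ ¬ OneWins E := by
  obtain ⟨E, _, _, _, _, ρ, hρ, hρs, hmin⟩ := exists_gleason (∀ i, Ultrafilter (A i))
  have hEne : Nonempty E := ⟨(hρs (fun i => pure (Classical.arbitrary _))).choose⟩
  refine ⟨E, inferInstance, inferInstance, inferInstance, ρ, hρ, hρs, hmin, ?_, ?_⟩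
  · intro i
    have hfn : ∀ a : A i, Fnl ({⟨i, a⟩} : Finset (Σ i, A i)) := by
      intro a x hx z hz _
      rw [Finset.mem_singleton] at hx hz
      rw [hx, hz]
    refine exists_cellular_of_family (fun a : A i => ρ ⁻¹' (B {⟨i, a⟩}))
      (fun a => (isOpen_B _).preimage hρ) (fun a => ?_) ?_
    · obtain ⟨y, hy⟩ := B_nonempty (hfn a)
      obtain ⟨e, rfl⟩ := hρs y
      exact ⟨e, hy⟩
    · intro a b hab
      rw [Set.disjoint_left]
      intro e he1 he2
      have h1 := he1 ⟨i, a⟩ (Finset.mem_singleton_self _)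
      have h2 := he2 ⟨i, b⟩ (Finset.mem_singleton_self _)
      simp only at h1 h2
      rw [h1] at h2
      exact hab (Ultrafilter.pure_injective h2)
  · apply not_oneWins (fun 𝒰 h => finite_of_extremallyDisconnected 𝒰 h)
    intro 𝒞 hc ho
    obtain ⟨K, O, hK, h1, h2⟩ := test_family hκ hκ' hA hρ hρs hmin 𝒞 hc ho
    exact ⟨K, O, hK.trans_le hle, h1, h2⟩

/-- If `κ` is an uncountable regular limit cardinal with `κ ≤ non(SMZ)`, then there is a compact
Hausdorff (extremally disconnected) space of cellularity at least `κ` on which `ONE` has no winning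
strategy. -/
theorem exists_space_of_regular_limit (κ : Cardinal.{u}) (hκ : κ.IsRegular) (hκ' : ℵ₀ < κ)
    (hlim : Order.IsSuccLimit κ) (hle : κ ≤ lift.{u} nonSMZ) :
    ∃ (X : Type u) (_ : TopologicalSpace X) (_ : T35Space X),
      κ ≤ cellularity X ∧ ¬ OneWins X := by
  let I : Type u := Shrink.{u} (Set.Iio κ)
  let A : I → Type u := fun i => Option ((equivShrink (Set.Iio κ)).symm i).1.out
  have hA : ∀ i, #(A i) < κ := by
    intro i
    rw [Cardinal.mk_option, Cardinal.mk_out]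
    exact Cardinal.add_lt_of_lt hκ.aleph0_le ((equivShrink (Set.Iio κ)).symm i).2
      (Cardinal.one_lt_aleph0.trans hκ')
  have hA' : ∀ μ < κ, ∃ i, μ ≤ #(A i) := by
    intro μ hμ
    refine ⟨equivShrink (Set.Iio κ) ⟨μ, hμ⟩, ?_⟩
    simp only [A]
    rw [Cardinal.mk_option, Cardinal.mk_out, Equiv.symm_apply_apply]
    exact self_le_add_right _ _
  obtain ⟨E, _, _, _, ρ, -, -, -, hcell, hnot⟩ := exists_cover A hκ hκ' hA hle
  refine ⟨E, inferInstance, inferInstance, ?_, hnot⟩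
  apply le_of_forall_lt
  intro μ hμ
  obtain ⟨i, hi⟩ := hA' (Order.succ μ) (hlim.succ_lt hμ)
  obtain ⟨𝒱, h𝒱, hc⟩ := hcell i
  exact (Order.lt_succ μ).trans_le (hi.trans (hc.trans (le_cellularity h𝒱)))

/-- For every `κ < non(SMZ)` there is a compact Hausdorff space without isolated points which has a
cellular family of cardinality at least `κ` and on which `ONE` has no winning strategy. -/
theorem exists_crowded_space (κ : Cardinal.{u}) (hκ : κ < lift.{u} nonSMZ) :
    ∃ (X : Type u) (_ : TopologicalSpace X), CompactSpace X ∧ T2Space X ∧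
      (∀ x : X, ¬ IsOpen ({x} : Set X)) ∧
      (∃ 𝒱 : Set (Set X), IsCellular 𝒱 ∧ κ ≤ #𝒱) ∧ ¬ OneWins X := by
  classical
  obtain ⟨L, hL⟩ : ∃ L : Type u, #L = max κ ℵ₀ := ⟨(max κ ℵ₀).out, Cardinal.mk_out _⟩
  have hLinf : Infinite L := by
    rw [Cardinal.infinite_iff, hL]
    exact le_max_right _ _
  have hmax : max κ ℵ₀ < lift.{u} nonSMZ := by
    refine max_lt hκ ?_
    simpa using (Cardinal.lift_lt.{0, u}).2 aleph0_lt_nonSMZ
  obtain ⟨E, _, hEc, hE2, ρ, hρ, hρs, hmin, hcell, hnot⟩ := exists_cover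
    (fun _ : ULift.{u} ℕ => L) (κ := Order.succ (max κ ℵ₀))
    (Cardinal.isRegular_succ (le_max_right _ _))
    ((le_max_right κ ℵ₀).trans_lt (Order.lt_succ _))
    (fun _ => by rw [hL]; exact Order.lt_succ _) (Order.succ_le_of_lt hmax)
  refine ⟨E, inferInstance, hEc, hE2, ?_, ?_, hnot⟩
  · intro e he
    obtain ⟨q, hq, hqe⟩ := exists_B_subset (isOpen_smallImage hρ he)
      (smallImage_nonempty hmin he (singleton_nonempty e))
    obtain ⟨i, hi⟩ := Infinite.exists_notMem_finset (q.image Sigma.fst)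
    have hfn : ∀ a : L, Fnl (insert (⟨i, a⟩ : Σ _ : ULift.{u} ℕ, L) q) := by
      intro a x hx z hz hxz
      rw [Finset.mem_insert] at hx hz
      rcases hx with rfl | hx <;> rcases hz with rfl | hz
      · rfl
      · exact absurd (Finset.mem_image.2 ⟨z, hz, hxz.symm⟩) hi
      · exact absurd (Finset.mem_image.2 ⟨x, hx, hxz⟩) hi
      · exact hq x hx z hz hxz
    have key : ∀ a : L, ρ e i = pure a := by
      intro a
      obtain ⟨y, hy⟩ := B_nonempty (hfn a)
      obtain ⟨e', rfl⟩ := hρs y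
      have h1 : ρ e' ∈ B q := fun x hx => hy x (Finset.mem_insert_of_mem hx)
      have h2 : e' ∈ ({e} : Set E) := mem_of_mem_smallImage (hqe h1)
      rw [mem_singleton_iff] at h2
      rw [← h2]
      exact hy ⟨i, a⟩ (Finset.mem_insert_self _ _)
    obtain ⟨a, b, hab⟩ := exists_pair_ne L
    exact hab (Ultrafilter.pure_injective ((key a).symm.trans (key b)))
  · obtain ⟨𝒱, h𝒱, hc⟩ := hcell ⟨0⟩
    refine ⟨𝒱, h𝒱, ?_⟩
    rw [hL] at hc
    exact (le_max_left _ _).trans hc

/-! ### The Erdős–Tarski theorem -/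

theorem exists_cofinal_of_isSingular {κ : Cardinal.{u}} (h : κ.IsSingular) :
    ∃ (ι : Type u) (f : ι → Cardinal.{u}), #ι < κ ∧ (∀ i, f i < κ) ∧ ∀ μ < κ, ∃ i, μ ≤ f i := by
  obtain ⟨s, hs, hcard⟩ := Order.exists_cof_eq κ.ord.ToType
  refine ⟨s, fun i => (Ordinal.ToType.toOrd i.1).1.card, ?_, ?_, ?_⟩
  · rw [hcard, Ordinal.cof_toType]
    exact h.cof_ord_lt
  · intro i
    rw [← Cardinal.lt_ord]
    exact (Ordinal.ToType.toOrd i.1).2
  · intro μ hμ
    have hμ' : μ.ord < κ.ord := Cardinal.ord_lt_ord.2 hμ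
    obtain ⟨i, hi, hle⟩ := hs (Ordinal.ToType.mk ⟨μ.ord, hμ'⟩)
    refine ⟨⟨i, hi⟩, ?_⟩
    rw [← Cardinal.ord_le]
    have h1 := Ordinal.ToType.mk.symm.monotone hle
    rw [OrderIso.symm_apply_apply] at h1
    exact h1

/-- Cellularity of the open subspace `G`, computed with open subsets of `X` inside `G`. -/
noncomputable def cel {X : Type u} [TopologicalSpace X] (G : Set X) : Cardinal.{u} :=
  ⨆ 𝒱 : {𝒱 : Set (Set X) // IsCellular 𝒱 ∧ ∀ V ∈ 𝒱, V ⊆ G}, #𝒱.1

theorem le_cel {X : Type u} [TopologicalSpace X] {G : Set X} {𝒱 : Set (Set X)}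
    (h : IsCellular 𝒱) (hG : ∀ V ∈ 𝒱, V ⊆ G) : #𝒱 ≤ cel G :=
  le_ciSup (f := fun 𝒱 : {𝒱 : Set (Set X) // IsCellular 𝒱 ∧ ∀ V ∈ 𝒱, V ⊆ G} => #𝒱.1)
    (Cardinal.bddAbove_of_small) ⟨𝒱, h, hG⟩

theorem exists_of_lt_cel {X : Type u} [TopologicalSpace X] {G : Set X} {μ : Cardinal.{u}}
    (h : μ < cel G) : ∃ 𝒱 : Set (Set X), IsCellular 𝒱 ∧ (∀ V ∈ 𝒱, V ⊆ G) ∧ μ < #𝒱 := by
  obtain ⟨𝒱, h𝒱⟩ := exists_lt_of_lt_ciSup' h
  exact ⟨𝒱.1, 𝒱.2.1, 𝒱.2.2, h𝒱⟩

theorem cel_mono {X : Type u} [TopologicalSpace X] {G H : Set X} (h : G ⊆ H) : cel G ≤ cel H := by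
  apply le_of_forall_lt
  intro μ hμ
  obtain ⟨𝒱, h1, h2, h3⟩ := exists_of_lt_cel hμ
  exact h3.trans_le (le_cel h1 fun V hV => (h2 V hV).trans h)

theorem cel_le_cellularity {X : Type u} [TopologicalSpace X] (G : Set X) :
    cel G ≤ cellularity X := by
  apply le_of_forall_lt
  intro μ hμ
  obtain ⟨𝒱, h1, h2, h3⟩ := exists_of_lt_cel hμ
  exact h3.trans_le (le_cellularity h1)

/-- gluing cellular families sitting inside pairwise disjoint sets -/
theorem IsCellular.glue {X : Type u} [TopologicalSpace X] {ι : Type u} (U : ι → Set X)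
    (hU : ∀ i j, i ≠ j → Disjoint (U i) (U j)) (𝒱 : ι → Set (Set X))
    (h𝒱 : ∀ i, IsCellular (𝒱 i)) (hsub : ∀ i, ∀ V ∈ 𝒱 i, V ⊆ U i) :
    IsCellular (⋃ i, 𝒱 i) := by
  refine ⟨?_, ?_⟩
  · intro V hV
    obtain ⟨i, hi⟩ := mem_iUnion.1 hV
    exact (h𝒱 i).1 V hi
  · intro V hV W hW hne
    obtain ⟨i, hi⟩ := mem_iUnion.1 hV
    obtain ⟨j, hj⟩ := mem_iUnion.1 hW
    by_cases hij : i = j
    · subst hij
      exact (h𝒱 i).2 hi hj hne
    · exact (hU i j hij).mono (hsub i V hi) (hsub j W hj)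

/-- **Erdős–Tarski**: a singular cellularity is attained. -/
theorem exists_cellular_of_isSingular {X : Type u} [TopologicalSpace X]
    (h : (cellularity X).IsSingular) :
    ∃ 𝒱 : Set (Set X), IsCellular 𝒱 ∧ cellularity X ≤ #𝒱 := by
  classical
  by_contra hcon
  push Not at hcon
  have hlim := h.isSuccLimit
  -- stable sets
  let Stable : Set X → Prop := fun H => IsOpen H ∧ H.Nonempty ∧
    ∀ H' ⊆ H, IsOpen H' → H'.Nonempty → cel H ≤ cel H'
  have hstab : ∀ G : Set X, IsOpen G → G.Nonempty → ∃ H ⊆ G, Stable H := by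
    intro G hG hGne
    let S : Set Cardinal.{u} := {μ | ∃ H ⊆ G, IsOpen H ∧ H.Nonempty ∧ cel H = μ}
    have hS : S.Nonempty := ⟨_, G, Subset.rfl, hG, hGne, rfl⟩
    obtain ⟨H, hHG, hHo, hHne, hH⟩ := csInf_mem hS
    refine ⟨H, hHG, hHo, hHne, fun H' hH' hH'o hH'ne => ?_⟩
    rw [hH]
    exact csInf_le' ⟨H', hH'.trans hHG, hH'o, hH'ne, rfl⟩
  -- a maximal cellular family of stable sets
  obtain ⟨𝒮, h𝒮⟩ := zorn_subset {𝒱 : Set (Set X) | IsCellular 𝒱 ∧ ∀ V ∈ 𝒱, Stable V} (by
    intro c hc hchain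
    refine ⟨⋃₀ c, ⟨⟨?_, ?_⟩, ?_⟩, fun s hs => subset_sUnion_of_mem hs⟩
    · rintro V ⟨s, hs, hV⟩
      exact (hc hs).1.1 V hV
    · rintro V ⟨s, hs, hV⟩ W ⟨t, ht, hW⟩ hVW
      rcases hchain.total hs ht with hst | hts
      · exact (hc ht).1.2 (hst hV) hW hVW
      · exact (hc hs).1.2 hV (hts hW) hVW
    · rintro V ⟨s, hs, hV⟩
      exact (hc hs).2 V hV)
  have h𝒮cell : IsCellular 𝒮 := h𝒮.prop.1
  have h𝒮stab : ∀ S ∈ 𝒮, Stable S := h𝒮.prop.2
  have hdense : ∀ G : Set X, IsOpen G → G.Nonempty → ∃ S ∈ 𝒮, (G ∩ S).Nonempty := by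
    intro G hG hGne
    by_contra hc
    push Not at hc
    obtain ⟨H, hHG, hHs⟩ := hstab G hG hGne
    have hdisj : ∀ S ∈ 𝒮, Disjoint H S := by
      intro S hS
      rw [Set.disjoint_iff_inter_eq_empty]
      have := hc S hS
      exact subset_eq_empty (inter_subset_inter_left _ hHG) this
    have hmem : H ∈ 𝒮 := by
      apply h𝒮.le_of_ge (y := insert H 𝒮) _ (subset_insert _ _) (mem_insert _ _)
      refine ⟨⟨?_, ?_⟩, ?_⟩
      · rintro V (rfl | hV)
        · exact ⟨hHs.1, hHs.2.1⟩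
        · exact h𝒮cell.1 V hV
      · exact h𝒮cell.2.insert fun S hS _ => hdisj S hS
      · rintro V (rfl | hV)
        · exact hHs
        · exact h𝒮stab V hV
    have := hdisj H hmem
    rw [disjoint_self] at this
    exact hHs.2.1.ne_empty this
  have h𝒮card : #𝒮 < cellularity X := hcon 𝒮 h𝒮cell
  -- the supremum of the local cellularities is everything
  have hsup : ∀ μ < cellularity X, ∃ S ∈ 𝒮, μ < cel S := by
    intro μ hμ
    by_contra hc
    push Not at hc
    let ν := Order.succ (max (max μ #𝒮) ℵ₀)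
    have hmax : max (max μ #𝒮) ℵ₀ < cellularity X := by
      refine max_lt (max_lt hμ h𝒮card) ?_
      exact lt_of_le_of_ne h.aleph0_le (fun heq => by
        rw [← heq] at h
        exact Cardinal.not_isSingular_aleph0 h)
    have hν : ν < cellularity X := hlim.succ_lt hmax
    have hνreg : ν.IsRegular := Cardinal.isRegular_succ (le_max_right _ _)
    obtain ⟨𝒱, h𝒱, hν𝒱⟩ := exists_of_lt_cellularity hν
    have hcov : 𝒱 ⊆ ⋃ S : 𝒮, {V | V ∈ 𝒱 ∧ (V ∩ S.1).Nonempty} := by
      intro V hV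
      obtain ⟨S, hS, hVS⟩ := hdense V (h𝒱.1 V hV).1 (h𝒱.1 V hV).2
      exact mem_iUnion.2 ⟨⟨S, hS⟩, hV, hVS⟩
    have hlt : #(⋃ S : 𝒮, {V | V ∈ 𝒱 ∧ (V ∩ S.1).Nonempty} : Set (Set X)) < ν := by
      rw [Cardinal.card_iUnion_lt_iff_forall_of_isRegular hνreg
        (Order.lt_succ_of_le ((le_max_right _ _).trans (le_max_left _ _)))]
      intro S
      have hinj : InjOn (fun V => V ∩ S.1) {V | V ∈ 𝒱 ∧ (V ∩ S.1).Nonempty} := by
        intro V hV W hW hVW
        by_contra hne
        obtain ⟨x, hx⟩ := hV.2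
        simp only at hVW
        have hx2 : x ∈ W ∩ S.1 := hVW ▸ hx
        exact (h𝒱.2 hV.1 hW.1 hne).le_bot ⟨hx.1, hx2.1⟩
      rw [← Cardinal.mk_image_eq_of_injOn _ _ hinj]
      have hcell : IsCellular ((fun V => V ∩ S.1) '' {V | V ∈ 𝒱 ∧ (V ∩ S.1).Nonempty}) := by
        refine ⟨?_, ?_⟩
        · rintro _ ⟨V, hV, rfl⟩
          exact ⟨(h𝒱.1 V hV.1).1.inter (h𝒮cell.1 S.1 S.2).1, hV.2⟩
        · rintro _ ⟨V, hV, rfl⟩ _ ⟨W, hW, rfl⟩ hne
          have hVW : V ≠ W := fun h => hne (by rw [h])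
          exact (h𝒱.2 hV.1 hW.1 hVW).mono inter_subset_left inter_subset_left
      have h1 : #((fun V => V ∩ S.1) '' {V | V ∈ 𝒱 ∧ (V ∩ S.1).Nonempty} : Set (Set X)) ≤
          cel S.1 := le_cel hcell (by
        rintro _ ⟨V, hV, rfl⟩
        exact inter_subset_right)
      refine Order.lt_succ_of_le (h1.trans ((hc S.1 S.2).trans ?_))
      exact (le_max_left _ _).trans (le_max_left _ _)
    exact absurd ((Cardinal.mk_le_mk_of_subset hcov).trans_lt hlt) (not_lt.2 hν𝒱.le)
  by_cases hcase : ∃ S ∈ 𝒮, cellularity X ≤ cel S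
  · -- one stable piece carries everything
    obtain ⟨S, hS, hcelS⟩ := hcase
    obtain ⟨ι, f, hι, hf, hcof⟩ := exists_cofinal_of_isSingular h
    obtain ⟨𝒰, h𝒰, h𝒰S, h𝒰card⟩ := exists_of_lt_cel (hι.trans_le hcelS)
    obtain ⟨e⟩ := Cardinal.le_def _ _ |>.1 h𝒰card.le
    have hexi : ∀ i : ι, ∃ 𝒱 : Set (Set X), IsCellular 𝒱 ∧ (∀ V ∈ 𝒱, V ⊆ (e i).1) ∧ f i < #𝒱 := by
      intro i
      apply exists_of_lt_cel
      refine (hf i).trans_le (hcelS.trans ?_)
      have := h𝒰.1 (e i).1 (e i).2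
      exact (h𝒮stab S hS).2.2 (e i).1 (h𝒰S _ (e i).2) this.1 this.2
    choose 𝒱 h1 h2 h3 using hexi
    have hglue : IsCellular (⋃ i, 𝒱 i) := by
      apply IsCellular.glue (fun i => (e i).1) _ 𝒱 h1 h2
      intro i j hij
      apply h𝒰.2 (e i).2 (e j).2
      intro heq
      exact hij (e.injective (Subtype.ext heq))
    have := hcon _ hglue
    obtain ⟨i, hi⟩ := hcof _ this
    exact absurd ((h3 i).trans_le (Cardinal.mk_le_mk_of_subset (subset_iUnion 𝒱 i)))
      (not_lt.2 hi)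
  · push Not at hcase
    -- choose in each stable piece a family beating all smaller local cellularities, if possible
    let 𝒱 : 𝒮 → Set (Set X) := fun S =>
      if hex : ∃ 𝒱 : Set (Set X), IsCellular 𝒱 ∧ (∀ V ∈ 𝒱, V ⊆ S.1) ∧
        ∀ S' ∈ 𝒮, cel S' < cel S.1 → cel S' ≤ #𝒱 then hex.choose else ∅
    have h1 : ∀ S, IsCellular (𝒱 S) := by
      intro S
      simp only [𝒱]
      split_ifs with hex
      · exact hex.choose_spec.1
      · exact ⟨fun V hV => absurd hV (notMem_empty V), fun V hV => absurd hV (notMem_empty V)⟩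
    have h2 : ∀ S, ∀ V ∈ 𝒱 S, V ⊆ S.1 := by
      intro S
      simp only [𝒱]
      split_ifs with hex
      · exact hex.choose_spec.2.1
      · exact fun V hV => absurd hV (notMem_empty V)
    have hglue : IsCellular (⋃ S, 𝒱 S) := by
      apply IsCellular.glue (fun S : 𝒮 => S.1) _ 𝒱 h1 h2
      intro S S' hne
      exact h𝒮cell.2 S.2 S'.2 (fun h => hne (Subtype.ext h))
    have hlt := hcon _ hglue
    obtain ⟨S₁, hS₁, hlt₁⟩ := hsup _ hlt
    -- the next value of the local cellularity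
    let T : Set Cardinal.{u} := {μ | ∃ S ∈ 𝒮, cel S = μ ∧ cel S₁ < μ}
    have hT : T.Nonempty := by
      obtain ⟨S₂, hS₂, hlt₂⟩ := hsup _ (hcase S₁ hS₁)
      exact ⟨_, S₂, hS₂, rfl, hlt₂⟩
    obtain ⟨S₂, hS₂, hS₂eq, hS₂lt⟩ := csInf_mem hT
    have hS₂lt' : cel S₁ < cel S₂ := by rw [hS₂eq]; exact hS₂lt
    have hex : ∃ 𝒱 : Set (Set X), IsCellular 𝒱 ∧ (∀ V ∈ 𝒱, V ⊆ S₂) ∧
        ∀ S' ∈ 𝒮, cel S' < cel S₂ → cel S' ≤ #𝒱 := by
      obtain ⟨𝒲, hW1, hW2, hW3⟩ := exists_of_lt_cel hS₂lt'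
      refine ⟨𝒲, hW1, hW2, ?_⟩
      intro S' hS' hlt'
      refine le_trans ?_ hW3.le
      by_contra hc
      rw [not_le] at hc
      have : sInf T ≤ cel S' := csInf_le' ⟨S', hS', rfl, hc⟩
      rw [← hS₂eq] at this
      exact absurd hlt' (not_lt.2 this)
    have hV : 𝒱 ⟨S₂, hS₂⟩ = hex.choose := dif_pos hex
    have h4 : cel S₁ ≤ #(𝒱 ⟨S₂, hS₂⟩) := by
      rw [hV]
      exact hex.choose_spec.2.2 S₁ hS₁ hS₂lt'
    have h5 : #(𝒱 ⟨S₂, hS₂⟩) ≤ #(⋃ S, 𝒱 S : Set (Set X)) :=
      Cardinal.mk_le_mk_of_subset (subset_iUnion 𝒱 ⟨S₂, hS₂⟩)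
    exact absurd hlt₁ (not_lt.2 (h4.trans h5))

/-! ### The value of the game cardinal -/

theorem nonSMZ_le_of_forall {κ : Cardinal.{u}}
    (h : ∀ (X : Type u) [TopologicalSpace X] [T35Space X],
      (∃ 𝒱 : Set (Set X), IsCellular 𝒱 ∧ κ ≤ #𝒱) → OneWins X) : lift.{u} nonSMZ ≤ κ := by
  by_contra hlt
  rw [not_le] at hlt
  obtain ⟨X, _, _, _, -, h1, h2⟩ := exists_crowded_space κ hlt
  exact h2 (h X h1)

theorem isLeast_attained :
    IsLeast {κ : Cardinal.{u} | ∀ (X : Type u) [TopologicalSpace X] [T35Space X],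
      (∃ 𝒱 : Set (Set X), IsCellular 𝒱 ∧ κ ≤ #𝒱) → OneWins X} (lift.{u} nonSMZ) := by
  refine ⟨?_, ?_⟩
  · rintro X _ _ ⟨𝒱, h𝒱, hc⟩
    exact oneWins_of_cellular h𝒱 hc
  · intro κ hκ
    exact nonSMZ_le_of_forall hκ

theorem isLeast_of_not_isWeaklyInaccessible (hW : ¬ IsWeaklyInaccessible nonSMZ) :
    IsLeast {κ : Cardinal.{u} | ∀ (X : Type u) [TopologicalSpace X] [T35Space X],
      κ ≤ cellularity X → OneWins X} (lift.{u} nonSMZ) := by
  refine ⟨?_, ?_⟩
  · intro X _ _ hX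
    rcases hX.lt_or_eq with hlt | heq
    · obtain ⟨𝒱, h𝒱, hc⟩ := exists_of_lt_cellularity hlt
      exact oneWins_of_cellular h𝒱 hc.le
    · have hinf : ℵ₀ < cellularity X := by
        rw [← heq]
        simpa using (Cardinal.lift_lt.{0, u}).2 aleph0_lt_nonSMZ
      rcases Cardinal.isRegular_or_isSingular hinf.le with hreg | hsing
      · -- a successor cardinal
        have hnl : ¬ Order.IsSuccLimit (cellularity X) := by
          intro hlim
          apply hW
          refine ⟨aleph0_lt_nonSMZ, ?_, ?_⟩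
          · rw [← heq] at hreg
            exact Cardinal.isRegular_lift_iff.1 hreg
          · rw [← heq] at hlim
            refine Cardinal.isSuccLimit_iff.2 ⟨(Cardinal.aleph0_pos.trans aleph0_lt_nonSMZ).ne', ?_⟩
            rw [Order.isSuccPrelimit_iff_succ_ne]
            intro a ha
            have h1 := hlim.isSuccPrelimit
            rw [Order.isSuccPrelimit_iff_succ_ne] at h1
            apply h1 (lift.{u} a)
            rw [← Cardinal.lift_succ, ha]
        rw [Cardinal.isSuccLimit_iff, not_and_or] at hnl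
        rcases hnl with h0 | hnl
        · exact absurd (Cardinal.aleph0_pos.trans hinf).ne' h0
        · rw [Order.isSuccPrelimit_iff_succ_ne] at hnl
          push Not at hnl
          obtain ⟨a, ha⟩ := hnl
          have : a < cellularity X := by
            rw [← ha]
            exact Order.lt_succ a
          obtain ⟨𝒱, h𝒱, hc⟩ := exists_of_lt_cellularity this
          refine oneWins_of_cellular h𝒱 ?_
          rw [heq, ← ha]
          exact Order.succ_le_of_lt hc
      · obtain ⟨𝒱, h𝒱, hc⟩ := exists_cellular_of_isSingular hsing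
        exact oneWins_of_cellular h𝒱 (hX.trans hc)
  · intro κ hκ
    apply nonSMZ_le_of_forall
    rintro X _ _ ⟨𝒱, h𝒱, hc⟩
    exact hκ X (hc.trans (le_cellularity h𝒱))

theorem isLeast_of_isWeaklyInaccessible (hW : IsWeaklyInaccessible nonSMZ) :
    IsLeast {κ : Cardinal.{u} | ∀ (X : Type u) [TopologicalSpace X] [T35Space X],
      κ ≤ cellularity X → OneWins X} (lift.{u} (Order.succ nonSMZ)) := by
  rw [Cardinal.lift_succ]
  refine ⟨?_, ?_⟩
  · intro X _ _ hX
    obtain ⟨𝒱, h𝒱, hc⟩ := exists_of_lt_cellularity ((Order.lt_succ _).trans_le hX)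
    exact oneWins_of_cellular h𝒱 hc.le
  · intro κ hκ
    by_contra hlt
    rw [not_le, Order.lt_succ_iff] at hlt
    obtain ⟨hW1, hW2, hW3⟩ := hW
    have h1 : ℵ₀ < lift.{u} nonSMZ := by
      simpa using (Cardinal.lift_lt.{0, u}).2 hW1
    have h3 : Order.IsSuccLimit (lift.{u} nonSMZ) := by
      refine Cardinal.isSuccLimit_iff.2 ⟨(Cardinal.aleph0_pos.trans h1).ne', ?_⟩
      rw [Order.isSuccPrelimit_iff_succ_ne]
      intro a ha
      have hle : a ≤ lift.{u} nonSMZ := by
        rw [← ha]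
        exact Order.le_succ a
      obtain ⟨b, rfl⟩ := Cardinal.mem_range_lift_of_le hle
      rw [← Cardinal.lift_succ] at ha
      have h2 := hW3.isSuccPrelimit
      rw [Order.isSuccPrelimit_iff_succ_ne] at h2
      exact h2 b (Cardinal.lift_injective ha)
    obtain ⟨X, _, _, hX, hX'⟩ := exists_space_of_regular_limit (lift.{u} nonSMZ)
      (Cardinal.isRegular_lift_iff.2 hW2) h1 h3 le_rfl
    exact hX' (hκ X (hlt.trans hX))


end Pool.Agent.H13.GameJ
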